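import Pool.Agent.Q35.HB.Stm

/-! # Project HB, job CLO -/

set_option autoImplicit false

namespace Pool.Agent.Q14.HB

open Pool.Agent.Q35.HB Pool.Agent.TH178.HI

theorem clo : S_CLO := by
  intro k K _ _ _ _ L hL a ha
  have cK : CharZero K := charZero_of_injective_algebraMap (algebraMap k K).injective
  obtain ⟨A, B, C₀, s, v, hA, hB, hC, hd, hs, hv, htop⟩ := hL
  have hd' : (⟨B, hB⟩ : L) ^ 2 - 4 * ⟨A, hA⟩ * ⟨C₀, hC⟩ ≠ 0 := by
    intro h0
    apply hd
    have h8 : algebraMap L K ((⟨B, hB⟩ : L) ^ 2 - 4 * ⟨A, hA⟩ * ⟨C₀, hC⟩) = 0 := by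
      rw [h0, map_zero]
    rw [map_sub, map_mul, map_mul, map_pow, map_ofNat] at h8
    exact h8
  have h1 := relCl_one (L := L) hs hd' (v := v) hv
  rw [adjoin_two, htop] at h1
  exact h1 a IntermediateField.mem_top ha

end Pool.Agent.Q14.HB
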