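import Pool.Agent.Q35.HB.Stm

/-! # Project HB, job EXT: linear disjointness and extension of embeddings -/

set_option autoImplicit false

namespace Pool.Agent.Q14.HB

open Pool.Agent.Q35.HB Polynomial

/-- minimal polynomials do not change -/
theorem minpoly_rel {k K M : Type} [Field k] [Field K] [Algebra k K] [Field M]
    [Algebra K M] (L : IntermediateField k K) (hL : ∀ a : K, IsAlgebraic L a → a ∈ L)
    (z : M) (hz : IsAlgebraic L z) :
    minpoly K z = (minpoly L z).map (algebraMap L K) := by
  have hzi : IsIntegral L z := hz.isIntegral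
  have hzK : IsIntegral K z := hzi.tower_top
  have hdvd : minpoly K z ∣ (minpoly L z).map (algebraMap L K) := minpoly.dvd_map_of_isScalarTower L K z
  have h1 := integralClosure.mem_lifts_of_monic_of_dvd_map K (minpoly.monic hzi)
    (minpoly.monic hzK) hdvd
  have h2 : minpoly K z ∈ lifts (algebraMap L K) := by
    rw [lifts_iff_coeff_lifts] at h1 ⊢
    intro n
    obtain ⟨y, hy⟩ := h1 n
    have h3 : IsIntegral L ((minpoly K z).coeff n) := by
      rw [← hy]
      exact y.2
    exact ⟨⟨_, hL _ h3.isAlgebraic⟩, rfl⟩
  obtain ⟨P, hP⟩ := h2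
  have hP' : P.map (algebraMap L K) = minpoly K z := hP
  have hmon : P.Monic := by
    have h3 := minpoly.monic hzK
    rw [← hP'] at h3
    exact monic_map_iff.mp h3
  have hroot : aeval z P = 0 := by
    have h3 := minpoly.aeval K z
    rw [← hP', aeval_map_algebraMap] at h3
    exact h3
  have h4 : minpoly L z ∣ P := minpoly.dvd L z hroot
  apply eq_of_monic_of_associated (minpoly.monic hzK) ((minpoly.monic hzi).map _)
  refine associated_of_dvd_dvd hdvd ?_
  rw [← hP']
  exact Polynomial.map_dvd _ h4

theorem ext : S_EXT := by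
  intro k K M E _ _ _ _ _ _ _ _ _ _ _ L hL N hN σ τ hστ
  have cL : CharZero L := ((algebraMap L K).charZero_iff (algebraMap L K).injective).mpr inferInstance
  have hNL : ∀ a : L, algebraMap K M (a : K) ∈ N := fun a =>
    (hN _).2 (isAlgebraic_algebraMap (R := L) (A := M) a)
  -- the element of `N` of maximal degree
  have hdeg : ∀ z ∈ N, (minpoly L z).natDegree ≤ Module.finrank K M := by
    intro z hz
    have h1 := minpoly_rel L hL z ((hN z).1 hz)
    have h2 : (minpoly K z).natDegree ≤ Module.finrank K M := minpoly.natDegree_le z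
    rw [h1, natDegree_map] at h2
    exact h2
  obtain ⟨u, huN, humax⟩ : ∃ u ∈ N, ∀ z ∈ N, (minpoly L z).natDegree ≤ (minpoly L u).natDegree := by
    classical
    let S : Set ℕ := {m | ∃ z ∈ N, (minpoly L z).natDegree = m}
    have hne : S.Nonempty := ⟨_, 0, N.zero_mem, rfl⟩
    have hbd : BddAbove S := ⟨Module.finrank K M, by
      rintro m ⟨z, hz, rfl⟩
      exact hdeg z hz⟩
    obtain ⟨u, hu, hum⟩ := Nat.sSup_mem hne hbd
    refine ⟨u, hu, fun z hz => ?_⟩
    rw [hum]
    exact le_csSup hbd ⟨z, hz, rfl⟩
  have hgen : ∀ z ∈ N, z ∈ IntermediateField.adjoin L {u} := by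
    intro z hz
    have hzi : IsIntegral L z := ((hN z).1 hz).isIntegral
    have hui : IsIntegral L u := ((hN u).1 huN).isIntegral
    have hfd : FiniteDimensional L (IntermediateField.adjoin L ({u, z} : Set M)) := by
      apply IntermediateField.finiteDimensional_adjoin
      rintro x (hx | hx)
      · rw [hx]; exact hui
      · rw [Set.mem_singleton_iff] at hx
        rw [hx]; exact hzi
    obtain ⟨u', hu'⟩ := Field.exists_primitive_element L (IntermediateField.adjoin L ({u, z} : Set M))
    have hu'N : (u' : M) ∈ N := by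
      rw [hN]
      have h1 : IsIntegral L u' := Algebra.IsIntegral.isIntegral u'
      have h2 : IsIntegral L (algebraMap (IntermediateField.adjoin L ({u, z} : Set M)) M u') :=
        h1.algebraMap
      exact h2.isAlgebraic
    have h3 : Module.finrank L (IntermediateField.adjoin L ({u, z} : Set M)) =
        (minpoly L (u' : M)).natDegree := by
      have h4 : minpoly L (u' : M) = minpoly L u' :=
        minpoly.algebraMap_eq (algebraMap (IntermediateField.adjoin L ({u, z} : Set M)) M).injective u'
      rw [h4, ← IntermediateField.adjoin.finrank (Algebra.IsIntegral.isIntegral u'), hu',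
        IntermediateField.finrank_top']
    have hle : IntermediateField.adjoin L {u} ≤ IntermediateField.adjoin L ({u, z} : Set M) := by
      apply IntermediateField.adjoin.mono
      rintro x hx
      exact Or.inl hx
    have h5 : Module.finrank L (IntermediateField.adjoin L {u}) = (minpoly L u).natDegree :=
      IntermediateField.adjoin.finrank hui
    have h6 : IntermediateField.adjoin L {u} = IntermediateField.adjoin L ({u, z} : Set M) := by
      apply IntermediateField.eq_of_le_of_finrank_le hle
      rw [h3, h5]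
      exact humax _ hu'N
    rw [h6]
    exact IntermediateField.subset_adjoin _ _ (Or.inr rfl)
  -- the embedding of `K(u)`
  let _ : Algebra K E := σ.toAlgebra
  let j : L →+* N := RingHom.codRestrict ((algebraMap K M).comp (algebraMap L K)) N hNL
  have hj : ∀ a : L, τ (j a) = σ a := fun a => hστ a (hNL a) a.2
  have hroot : aeval (τ ⟨u, huN⟩) (minpoly K u) = 0 := by
    rw [minpoly_rel L hL u ((hN u).1 huN), aeval_def, eval₂_map]
    have h1 : (algebraMap K E).comp (algebraMap L K) = τ.comp j := by
      ext a
      exact (hj a).symm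
    rw [h1, ← hom_eval₂]
    have h2 : eval₂ j ⟨u, huN⟩ (minpoly L u) = 0 := by
      apply (algebraMap N M).injective
      rw [hom_eval₂, map_zero]
      exact minpoly.aeval L u
    rw [h2, map_zero]
  obtain ⟨φ, hφ⟩ := IntermediateField.exists_algHom_of_splits_of_aeval (F := K) (E := M) (K := E)
    (fun s => ⟨Algebra.IsIntegral.isIntegral s, IsAlgClosed.splits _⟩) hroot
  refine ⟨φ.toRingHom, fun a => φ.commutes a, ?_⟩
  have key : ∀ x ∈ IntermediateField.adjoin L {u}, ∃ h : x ∈ N, φ x = τ ⟨x, h⟩ := by
    intro x hx
    induction hx using IntermediateField.adjoin_induction with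
    | mem x hx =>
      rw [Set.mem_singleton_iff] at hx
      subst hx
      exact ⟨huN, hφ⟩
    | algebraMap a =>
      refine ⟨hNL a, ?_⟩
      exact (φ.commutes (a : K)).trans (hj a).symm
    | add x y _ _ hx hy =>
      obtain ⟨h1, h2⟩ := hx
      obtain ⟨h3, h4⟩ := hy
      exact ⟨add_mem h1 h3, by rw [map_add, h2, h4, ← map_add]; rfl⟩
    | mul x y _ _ hx hy =>
      obtain ⟨h1, h2⟩ := hx
      obtain ⟨h3, h4⟩ := hy
      exact ⟨mul_mem h1 h3, by rw [map_mul, h2, h4, ← map_mul]; rfl⟩
    | inv x _ hx =>
      obtain ⟨h1, h2⟩ := hx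
      exact ⟨inv_mem h1, by rw [map_inv₀, h2, ← map_inv₀]; rfl⟩
  intro z
  obtain ⟨h1, h2⟩ := key z (hgen z z.2)
  exact h2

end Pool.Agent.Q14.HB
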